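import Pool.Agent.helper11.VQ.Spec3b

set_option autoImplicit false

open scoped MatrixGroups ContDiff Topology UpperHalfPlane ComplexConjugate ENNReal
open UpperHalfPlane MeasureTheory Filter Set

namespace Pool.Agent.VQ

open Pool.Agent.RS
open Pool.Agent.RPQ (CEig mean VV IsOp IsMul OProj wrd PJ nst mks MO Net Cl)

section

variable {Y : Type} [MeasurableSpace Y]

theorem CEZ_left {f : Y → Y → ENNReal} (hf : Measurable (Function.uncurry f)) (g : Y) :
    Measurable (f g) := hf.comp measurable_prodMk_left

theorem CEZ_right {f : Y → Y → ENNReal} (hf : Measurable (Function.uncurry f)) (h : Y) :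
    Measurable fun p => f p h := hf.comp measurable_prodMk_right

theorem CEZ_cat (hUNZ : UNZ_stmt) (m : Measure Y) [SigmaFinite m] : ∀ (a b : ℕ) (s : ℕ → Y → Y → ENNReal),
    (∀ j, Measurable (Function.uncurry (s j))) → ∀ g h : Y,
    pE m (a + 1 + b) s g h = ∫⁻ p, pE m a s g p * pE m b (fun j => s (a + 1 + j)) p h ∂m := by
  intro a
  induction a with
  | zero =>
    intro b s hs g h
    have e1 : 0 + 1 + b = b + 1 := by omega
    have e2 : (fun j => s (0 + 1 + j)) = fun j => s (j + 1) := by
      funext j
      have e3 : 0 + 1 + j = j + 1 := by omega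
      rw [e3]
    rw [e1, e2]
    rfl
  | succ a ih =>
    intro b s hs g h
    have e1 : a + 1 + 1 + b = (a + 1 + b) + 1 := by omega
    have e2 : (fun j => s (a + 1 + 1 + j)) = fun j => (fun i => s (i + 1)) (a + 1 + j) := by
      funext j
      have e3 : a + 1 + 1 + j = a + 1 + j + 1 := by omega
      rw [e3]
    rw [e1, e2]
    have hs' : ∀ j, Measurable (Function.uncurry ((fun i => s (i + 1)) j)) := fun j => hs (j + 1)
    have hs'' : ∀ j, Measurable (Function.uncurry ((fun j => (fun i => s (i + 1)) (a + 1 + j)) j)) :=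
      fun j => hs (a + 1 + j + 1)
    have hm1 : Measurable (Function.uncurry (pE m a (fun i => s (i + 1)))) := (hUNZ Y m _ hs' a).1
    have hm2 : Measurable (Function.uncurry (pE m b (fun j => (fun i => s (i + 1)) (a + 1 + j)))) := (hUNZ Y m _ hs'' b).1
    have step : pE m (a + 1 + b + 1) s g h = ∫⁻ q, s 0 g q * pE m (a + 1 + b) (fun i => s (i + 1)) q h ∂m := rfl
    rw [step]
    have h1 : ∀ q, s 0 g q * pE m (a + 1 + b) (fun i => s (i + 1)) q h =
        ∫⁻ p, s 0 g q * (pE m a (fun i => s (i + 1)) q p * pE m b (fun j => (fun i => s (i + 1)) (a + 1 + j)) p h) ∂m := by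
      intro q
      rw [ih b (fun i => s (i + 1)) hs' q h, lintegral_const_mul]
      exact (CEZ_left hm1 q).mul (CEZ_right hm2 h)
    rw [lintegral_congr h1, lintegral_lintegral_swap]
    swap
    · refine Measurable.aemeasurable ?_
      refine ((CEZ_left (hs 0) g).comp measurable_fst).mul ?_
      exact hm1.mul ((CEZ_right hm2 h).comp measurable_snd)
    refine lintegral_congr fun p => ?_
    have h2 : pE m (a + 1) s g p = ∫⁻ q, s 0 g q * pE m a (fun i => s (i + 1)) q p ∂m := rfl
    rw [h2, ← lintegral_mul_const]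
    · refine lintegral_congr fun q => ?_
      rw [mul_assoc]
    · exact (CEZ_left (hs 0) g).mul (CEZ_right hm1 p)

theorem CEZ_y (hUNZ : UNZ_stmt) (m : Measure Y) [SigmaFinite m] : ∀ (n : ℕ) (s : ℕ → Y → Y → ENNReal),
    (∀ j, Measurable (Function.uncurry (s j))) → ∀ (y : Y → ENNReal) (g h : Y),
    pE m n (fun j g h => s j g h * (if j = n then y h else 1)) g h = pE m n s g h * y h := by
  intro n
  induction n with
  | zero =>
    intro s hs y g h
    show s 0 g h * (if (0 : ℕ) = 0 then y h else 1) = s 0 g h * y h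
    rw [if_pos rfl]
  | succ n ih =>
    intro s hs y g h
    have hs' : ∀ j, Measurable (Function.uncurry ((fun i => s (i + 1)) j)) := fun j => hs (j + 1)
    have e1 : (fun j g h => s (j + 1) g h * (if j + 1 = n + 1 then y h else 1)) =
        fun j g h => (fun i => s (i + 1)) j g h * (if j = n then y h else 1) := by
      funext j g h
      simp only [Nat.add_right_cancel_iff]
    have step : pE m (n + 1) (fun j g h => s j g h * (if j = n + 1 then y h else 1)) g h =
        ∫⁻ p, (s 0 g p * (if 0 = n + 1 then y p else 1)) *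
          pE m n (fun j g h => s (j + 1) g h * (if j + 1 = n + 1 then y h else 1)) p h ∂m := rfl
    rw [step, e1]
    have h1 : ∀ p, (s 0 g p * (if 0 = n + 1 then y p else 1)) *
        pE m n (fun j g h => (fun i => s (i + 1)) j g h * (if j = n then y h else 1)) p h =
        s 0 g p * pE m n (fun i => s (i + 1)) p h * y h := by
      intro p
      rw [ih (fun i => s (i + 1)) hs' y p h, if_neg (by omega), mul_one, mul_assoc]
    rw [lintegral_congr h1, lintegral_mul_const]
    · rfl
    · exact (CEZ_left (hs 0) g).mul (CEZ_right (hUNZ Y m _ hs' n).1 h)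

theorem CEZ_x (hUNZ : UNZ_stmt) (m : Measure Y) [SigmaFinite m] (n : ℕ) (s : ℕ → Y → Y → ENNReal)
    (hs : ∀ j, Measurable (Function.uncurry (s j))) (x : Y → ENNReal) (g h : Y) :
    pE m n (fun j g h => (if j = 0 then x g else 1) * s j g h) g h = x g * pE m n s g h := by
  cases n with
  | zero =>
    show (if (0 : ℕ) = 0 then x g else 1) * s 0 g h = x g * s 0 g h
    rw [if_pos rfl]
  | succ n =>
    have hs' : ∀ j, Measurable (Function.uncurry ((fun i => s (i + 1)) j)) := fun j => hs (j + 1)
    have e1 : (fun j g h => (if j + 1 = 0 then x g else 1) * s (j + 1) g h) = fun j g h => s (j + 1) g h := by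
      funext j g h
      rw [if_neg (by omega), one_mul]
    have step : pE m (n + 1) (fun j g h => (if j = 0 then x g else 1) * s j g h) g h =
        ∫⁻ p, ((if (0 : ℕ) = 0 then x g else 1) * s 0 g p) *
          pE m n (fun j g h => (if j + 1 = 0 then x g else 1) * s (j + 1) g h) p h ∂m := rfl
    rw [step, e1]
    have h1 : ∀ p, ((if (0 : ℕ) = 0 then x g else 1) * s 0 g p) * pE m n (fun j g h => s (j + 1) g h) p h =
        x g * (s 0 g p * pE m n (fun i => s (i + 1)) p h) := by
      intro p
      rw [if_pos rfl, mul_assoc]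
    rw [lintegral_congr h1, lintegral_const_mul]
    · rfl
    · exact (CEZ_left (hs 0) g).mul (CEZ_right (hUNZ Y m _ hs' n).1 h)

end

theorem CEZ_proof (hUNZ : UNZ_stmt) : CEZ_stmt := by
  intro Y _ m _ s hs
  refine ⟨fun a b g h => CEZ_cat hUNZ m a b s hs g h, ?_⟩
  intro n x y hx _ g h
  have ht : ∀ j, Measurable (Function.uncurry ((fun (j : ℕ) (g h : Y) => (if j = 0 then x g else 1) * s j g h) j)) := by
    intro j
    have h1 : Function.uncurry ((fun (j : ℕ) (g h : Y) => (if j = 0 then x g else 1) * s j g h) j) =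
        fun p : Y × Y => (if j = 0 then x p.1 else 1) * s j p.1 p.2 := rfl
    rw [h1]
    by_cases hj : j = 0
    · simp only [if_pos hj]
      exact (hx.comp measurable_fst).mul (hs j)
    · simp only [if_neg hj, one_mul]
      exact hs j
  have h1 := CEZ_y hUNZ m n (fun (j : ℕ) (g h : Y) => (if j = 0 then x g else 1) * s j g h) ht y g h
  have h2 := CEZ_x hUNZ m n s hs x g h
  rw [h2] at h1
  exact h1

end Pool.Agent.VQ
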