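import Pool.Agent.helper84.VQ.Spec4a

set_option autoImplicit false

open scoped MatrixGroups ContDiff Topology UpperHalfPlane ComplexConjugate ENNReal
open UpperHalfPlane MeasureTheory Filter Set

namespace Pool.Agent.VQ

open Pool.Agent.RS
open Pool.Agent.VQE (nm)

lemma I64_le {x : SL(2, ℝ)} {b : ℝ} : nm x ≤ b ↔ (|x.1 0 0 - 1| ≤ b ∧ |x.1 0 1| ≤ b) ∧ |x.1 1 0| ≤ b ∧ |x.1 1 1 - 1| ≤ b := by
  unfold nm
  rw [max_le_iff, max_le_iff, max_le_iff]

lemma I64_lt {x : SL(2, ℝ)} {b : ℝ} : nm x < b ↔ (|x.1 0 0 - 1| < b ∧ |x.1 0 1| < b) ∧ |x.1 1 0| < b ∧ |x.1 1 1 - 1| < b := by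
  unfold nm
  rw [max_lt_iff, max_lt_iff, max_lt_iff]

lemma I64_nn (x : SL(2, ℝ)) : 0 ≤ nm x := by
  have h := (I64_le.1 (le_refl (nm x))).2.1
  exact (abs_nonneg _).trans h

lemma I64_pr (a b c e u v : ℝ) (ha : |a| ≤ u) (hc : |c| ≤ u) (hb : |b| ≤ v) (he : |e| ≤ v) :
    |a * b + a + b + c * e| ≤ u + v + 2 * (u * v) := by
  have hu : 0 ≤ u := (abs_nonneg _).trans ha
  have h1 : |a * b| ≤ u * v := by
    rw [abs_mul]
    exact mul_le_mul ha hb (abs_nonneg _) hu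
  have h2 : |c * e| ≤ u * v := by
    rw [abs_mul]
    exact mul_le_mul hc he (abs_nonneg _) hu
  have h3 := abs_add_le (a * b + a + b) (c * e)
  have h4 := abs_add_le (a * b + a) b
  have h5 := abs_add_le (a * b) a
  linarith

lemma I64_mul (x y : SL(2, ℝ)) : nm (x * y) ≤ nm x + nm y + 2 * (nm x * nm y) := by
  obtain ⟨⟨x1, x2⟩, x3, x4⟩ := I64_le.1 (le_refl (nm x))
  obtain ⟨⟨y1, y2⟩, y3, y4⟩ := I64_le.1 (le_refl (nm y))
  have hxy : ∀ i j, (x * y).1 i j = x.1 i 0 * y.1 0 j + x.1 i 1 * y.1 1 j := by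
    intro i j
    rw [Matrix.SpecialLinearGroup.coe_mul, Matrix.mul_apply, Fin.sum_univ_two]
  rw [I64_le]
  refine ⟨⟨?_, ?_⟩, ?_, ?_⟩
  · rw [hxy, show x.1 0 0 * y.1 0 0 + x.1 0 1 * y.1 1 0 - 1 =
      (x.1 0 0 - 1) * (y.1 0 0 - 1) + (x.1 0 0 - 1) + (y.1 0 0 - 1) + x.1 0 1 * y.1 1 0 by ring]
    exact I64_pr _ _ _ _ _ _ x1 x2 y1 y3
  · rw [hxy, show x.1 0 0 * y.1 0 1 + x.1 0 1 * y.1 1 1 =
      x.1 0 1 * (y.1 1 1 - 1) + x.1 0 1 + y.1 0 1 + (x.1 0 0 - 1) * y.1 0 1 by ring]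
    have h := I64_pr (x.1 0 1) (y.1 1 1 - 1) (x.1 0 0 - 1) (y.1 0 1) _ _ x2 x1 y4 y2
    have h6 : |x.1 0 1 * (y.1 1 1 - 1)| ≤ nm x * nm y := by
      rw [abs_mul]
      exact mul_le_mul x2 y4 (abs_nonneg _) (I64_nn x)
    have h7 : |(x.1 0 0 - 1) * y.1 0 1| ≤ nm x * nm y := by
      rw [abs_mul]
      exact mul_le_mul x1 y2 (abs_nonneg _) (I64_nn x)
    have h3 := abs_add_le (x.1 0 1 * (y.1 1 1 - 1) + x.1 0 1 + y.1 0 1) ((x.1 0 0 - 1) * y.1 0 1)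
    have h4 := abs_add_le (x.1 0 1 * (y.1 1 1 - 1) + x.1 0 1) (y.1 0 1)
    have h5 := abs_add_le (x.1 0 1 * (y.1 1 1 - 1)) (x.1 0 1)
    linarith
  · rw [hxy, show x.1 1 0 * y.1 0 0 + x.1 1 1 * y.1 1 0 =
      x.1 1 0 * (y.1 0 0 - 1) + x.1 1 0 + y.1 1 0 + (x.1 1 1 - 1) * y.1 1 0 by ring]
    have h6 : |x.1 1 0 * (y.1 0 0 - 1)| ≤ nm x * nm y := by
      rw [abs_mul]
      exact mul_le_mul x3 y1 (abs_nonneg _) (I64_nn x)
    have h7 : |(x.1 1 1 - 1) * y.1 1 0| ≤ nm x * nm y := by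
      rw [abs_mul]
      exact mul_le_mul x4 y3 (abs_nonneg _) (I64_nn x)
    have h3 := abs_add_le (x.1 1 0 * (y.1 0 0 - 1) + x.1 1 0 + y.1 1 0) ((x.1 1 1 - 1) * y.1 1 0)
    have h4 := abs_add_le (x.1 1 0 * (y.1 0 0 - 1) + x.1 1 0) (y.1 1 0)
    have h5 := abs_add_le (x.1 1 0 * (y.1 0 0 - 1)) (x.1 1 0)
    linarith
  · rw [hxy, show x.1 1 0 * y.1 0 1 + x.1 1 1 * y.1 1 1 - 1 =
      (x.1 1 1 - 1) * (y.1 1 1 - 1) + (x.1 1 1 - 1) + (y.1 1 1 - 1) + x.1 1 0 * y.1 0 1 by ring]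
    exact I64_pr _ _ _ _ _ _ x4 x3 y4 y2

lemma I64_neg (x : SL(2, ℝ)) (i j : Fin 2) : (-x).1 i j = -(x.1 i j) := by
  rw [Matrix.SpecialLinearGroup.coe_neg, Matrix.neg_apply]

lemma I64_Bo {r : ℝ} {x : SL(2, ℝ)} : x ∈ Bo r ↔ nm x < r ∨ nm (-x) < r := by
  have e : ∀ a : ℝ, |-a - 1| = |a + 1| := by
    intro a
    rw [← abs_neg]
    congr 1
    ring
  constructor
  · rintro (h | h)
    · left
      rw [I64_lt]
      have h1 := h 0 0
      have h2 := h 0 1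
      have h3 := h 1 0
      have h4 := h 1 1
      simp at h1 h2 h3 h4
      exact ⟨⟨h1, h2⟩, h3, h4⟩
    · right
      rw [I64_lt, I64_neg, I64_neg, I64_neg, I64_neg, e, e, abs_neg, abs_neg]
      have h1 := h 0 0
      have h2 := h 0 1
      have h3 := h 1 0
      have h4 := h 1 1
      simp at h1 h2 h3 h4
      exact ⟨⟨h1, h2⟩, h3, h4⟩
  · rintro (h | h)
    · left
      rw [I64_lt] at h
      intro i j
      fin_cases i <;> fin_cases j
      · simpa using h.1.1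
      · simpa using h.1.2
      · simpa using h.2.1
      · simpa using h.2.2
    · right
      rw [I64_lt, I64_neg, I64_neg, I64_neg, I64_neg, e, e, abs_neg, abs_neg] at h
      intro i j
      fin_cases i <;> fin_cases j
      · simpa using h.1.1
      · simpa using h.1.2
      · simpa using h.2.1
      · simpa using h.2.2

lemma I64_ind (hGR4 : GR4_stmt) {d : ℝ} {D : Dyn} (hF : FE d D) (hd0 : 0 < d) (hd : d ≤ 1 / 30) {s r M : ℝ} {W : Set ℝ}
    (hW : ∀ E ∈ W, |E| ≤ d / 4) (hs : 0 ≤ s) (hr : 0 < r) (m : ℕ) (hM : M = Real.exp (11 / 10 * (m * s)))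
    (h1 : (6 * m + 1) * r * M ≤ 1) : ∀ k ≤ m, ∀ p q : SL(2, ℝ) × ℝ, RC D s r W k p q →
    p.2 ∈ W ∧ q.2 ∈ W ∧ |p.2 - q.2| ≤ (k + 1) * r ∧ ∃ q' : SL(2, ℝ), (q' = q.1 ∨ q' = -q.1) ∧
      nm ((D.fl p.2 (k * s) p.1)⁻¹ * q') ≤ (6 * k + 1) * r * M := by
  have hM1 : 1 ≤ M := by
    rw [hM]
    exact Real.one_le_exp (by positivity)
  intro k
  induction k with
  | zero =>
    intro _ p q h
    obtain ⟨hp, hq, hN⟩ := h
    refine ⟨hp, hq, ?_, ?_⟩
    · have := hN.2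
      simp only [Nat.cast_zero, zero_add, one_mul]
      exact this.le
    · rw [Nat.cast_zero, zero_mul, hF.zero]
      have h2 : r ≤ (6 * 0 + 1) * r * M := by nlinarith
      rcases I64_Bo.1 hN.1 with h | h
      · exact ⟨q.1, Or.inl rfl, h.le.trans h2⟩
      · refine ⟨-q.1, Or.inr rfl, ?_⟩
        rw [mul_neg]
        exact h.le.trans h2
  | succ k ih =>
    intro hk p q h
    obtain ⟨x, hp, hx, hN, hR⟩ := h
    obtain ⟨_, hq, hxq, q', hq', hn⟩ := ih (by omega) x q hR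
    have hN2 : |p.2 - x.2| < r := hN.2
    refine ⟨hp, hq, ?_, ?_⟩
    · have h2 := abs_sub_le p.2 x.2 q.2
      push_cast
      linarith
    · have hkm : ((k : ℕ) : ℝ) + 1 ≤ m := by exact_mod_cast hk
      have hks : (0 : ℝ) ≤ k * s := by positivity
      have hexp : Real.exp (11 / 10 * |(k : ℝ) * s|) ≤ M := by
        rw [abs_of_nonneg hks, hM]
        apply Real.exp_le_exp.2
        have : (k : ℝ) * s ≤ m * s := mul_le_mul_of_nonneg_right (by linarith) hs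
        linarith
      have hadd : D.fl p.2 (((k + 1 : ℕ) : ℝ) * s) p.1 = D.fl p.2 (k * s) (D.fl p.2 s p.1) := by
        rw [← hF.add p.2 (k * s) s p.1 (hW _ hp)]
        congr 1
        push_cast
        ring
      have hB := I64_Bo.1 hN.1
      have hex : ∃ x' y' : SL(2, ℝ), nm ((D.fl p.2 s p.1)⁻¹ * x') < r ∧ D.fl x.2 (k * s) x' = y' ∧
          (y' = D.fl x.2 (k * s) x.1 ∨ y' = -D.fl x.2 (k * s) x.1) := by
        rcases hB with h | h
        · exact ⟨x.1, _, h, rfl, Or.inl rfl⟩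
        · refine ⟨-x.1, _, ?_, hF.neg _ _ _ (hW _ hx), Or.inr rfl⟩
          rw [mul_neg]
          exact h
      obtain ⟨x', y', hx', hy', hy⟩ := hex
      have hG := hGR4 d D hF hd0 hd p.2 x.2 (k * s) r (D.fl p.2 s p.1) x' (hW _ hp) (hW _ hx)
        (by rw [abs_sub_comm]; exact hN2.le)
      have hZ : nm ((D.fl p.2 (((k + 1 : ℕ) : ℝ) * s) p.1)⁻¹ * y') ≤ 2 * r * M := by
        rw [hadd, ← hy']
        refine hG.trans ?_
        have h3 : nm ((D.fl p.2 s p.1)⁻¹ * x') + r ≤ 2 * r := by linarith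
        exact mul_le_mul h3 hexp (Real.exp_pos _).le (by positivity)
      obtain ⟨Z, hZd⟩ : ∃ Z : SL(2, ℝ), Z = (D.fl p.2 (((k + 1 : ℕ) : ℝ) * s) p.1)⁻¹ * y' := ⟨_, rfl⟩
      obtain ⟨V, hVd⟩ : ∃ V : SL(2, ℝ), V = (D.fl x.2 (k * s) x.1)⁻¹ * q' := ⟨_, rfl⟩
      rw [← hZd] at hZ
      rw [← hVd] at hn
      have hrM : 0 < r * M := by positivity
      have hV1 : nm V ≤ 1 := by
        refine hn.trans ?_
        refine le_trans ?_ h1
        have : (6 * (k : ℝ) + 1) ≤ 6 * m + 1 := by linarith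
        have h4 := mul_le_mul_of_nonneg_right this hrM.le
        linarith
      have hmul : nm (Z * V) ≤ (6 * ((k + 1 : ℕ) : ℝ) + 1) * r * M := by
        have h4 := I64_mul Z V
        have h5 := I64_nn Z
        have h6 : nm Z * nm V ≤ nm Z * 1 := mul_le_mul_of_nonneg_left hV1 h5
        push_cast
        nlinarith
      rcases hy with hy | hy
      · refine ⟨q', hq', ?_⟩
        have h7 : Z * V = (D.fl p.2 (((k + 1 : ℕ) : ℝ) * s) p.1)⁻¹ * q' := by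
          rw [hZd, hVd, hy]
          group
        rw [← h7]
        exact hmul
      · refine ⟨-q', ?_, ?_⟩
        · rcases hq' with h | h
          · right
            rw [h]
          · left
            rw [h, neg_neg]
        · have h7 : Z * V = (D.fl p.2 (((k + 1 : ℕ) : ℝ) * s) p.1)⁻¹ * -q' := by
            rw [hZd, hVd, hy, mul_neg, mul_neg, neg_mul]
            group
          rw [← h7]
          exact hmul

theorem I64_proof (hFE4 : FE4_stmt) (hGR4 : GR4_stmt) (hAR4 : AR4_stmt) : I6_stmt := by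
  intro Γ hΓ
  obtain ⟨K, hK, hFE⟩ := hFE4 Γ hΓ
  have hK0 : 0 < K := by linarith
  refine ⟨1 / (30 * K), 10, by positivity, by norm_num, ?_⟩
  intro B A hA
  have hKd : K * (1 / (30 * K)) = 1 / 30 := by field_simp
  obtain ⟨R0, hR0, hAR⟩ := hAR4 A 1 1 (1 / 30) hA le_rfl le_rfl (by norm_num)
  refine ⟨R0, by linarith, ?_⟩
  intro R D hR hOK p q hRe
  have hF : FE (1 / 30) D := by
    have := hFE (1 / (30 * K)) B D (by positivity) (by rw [hKd]; norm_num) hOK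
    rw [hKd] at this
    exact this
  obtain ⟨k, t, ε, hk1, ht1, ht2, hsg, hr0, hr1, _, _, _, _, _, hE, _, hfin⟩ := hAR R hR
  have hR1 : 1 < R := by linarith
  have hs0 : 0 ≤ A.sg R := by
    rw [hsg]
    positivity
  obtain ⟨M, hM⟩ : ∃ M : ℝ, M = Real.exp (11 / 10 * (A.m * A.sg R)) := ⟨_, rfl⟩
  have hM1 : 1 ≤ M := by
    rw [hM]
    exact Real.one_le_exp (by positivity)
  have hfin' : 20 * (A.m + 1) * A.r R * M ≤ R ^ (-(1 / 5) : ℝ) := by
    rw [hM]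
    exact hfin
  have hRl : R ^ (-(1 / 5) : ℝ) ≤ 1 := Real.rpow_le_one_of_one_le_of_nonpos hR1.le (by norm_num)
  have hrM : 0 < A.r R * M := by positivity
  have hm0 : (0 : ℝ) ≤ A.m := Nat.cast_nonneg _
  have h67 : (6 * (A.m : ℝ) + 1) * A.r R * M < 20 * (A.m + 1) * A.r R * M := by
    have h2 : (6 * (A.m : ℝ) + 1) < 20 * (A.m + 1) := by linarith
    have h3 := mul_lt_mul_of_pos_right h2 hrM
    linarith
  obtain ⟨hp, hq, hpq, q', hq', hn⟩ := I64_ind hGR4 hF (by norm_num) le_rfl hE hs0 hr0 A.m hM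
    (by linarith) A.m le_rfl p q hRe
  have hm1 : (A.m + 1) * A.r R < R ^ (-(1 / 5) : ℝ) := by
    have h2 : (A.m + 1) * A.r R ≤ (A.m + 1) * A.r R * M := by
      have : 0 ≤ (A.m + 1) * A.r R := by positivity
      nlinarith
    have h3 : 0 < (A.m + 1) * A.r R * M := by positivity
    linarith
  refine ⟨⟨?_, hpq.trans_lt hm1⟩, hp, hq, hpq⟩
  show (D.fl p.2 (A.tu R) p.1)⁻¹ * q.1 ∈ Bo (R ^ (-(1 / 5) : ℝ))
  have htu : A.tu R = A.m * A.sg R := rfl
  rw [I64_Bo, htu]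
  have hlt : nm ((D.fl p.2 (A.m * A.sg R) p.1)⁻¹ * q') < R ^ (-(1 / 5) : ℝ) := by linarith
  rcases hq' with h | h
  · left
    rw [h] at hlt
    exact hlt
  · right
    rw [h, mul_neg] at hlt
    exact hlt

end Pool.Agent.VQ
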