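import Pool.Agent.helper84.VQ.Spec4a

set_option autoImplicit false

open scoped MatrixGroups ContDiff Topology UpperHalfPlane ComplexConjugate ENNReal
open UpperHalfPlane MeasureTheory Filter Set

namespace Pool.Agent.VQ

open Pool.Agent.RS
open Pool.Agent.VQE (nm)

lemma CA4_neg {d : ℝ} {D : Dyn} (hF : FE d D) {t ε : ℝ} {n : ℕ} {w : ℕ → SL(2, ℝ) × ℝ} (hw : PO D d t ε n w) :
    PO D d t ε n (fun i => (-(w i).1, (w i).2)) := by
  refine ⟨fun i hi => hw.en i hi, fun i hi => ?_⟩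
  have h1 := hw.st i hi
  have h2 := hF.neg (w i).2 t (w i).1 (hw.en i hi.le)
  refine ⟨?_, h1.2⟩
  show nm ((D.fl (w i).2 t (-(w i).1))⁻¹ * (-(w (i + 1)).1)) ≤ ε
  rw [h2, inv_neg, neg_mul_neg]
  exact h1.1

lemma CA4_cat {d : ℝ} {D : Dyn} {t ε : ℝ} {n1 n2 : ℕ} {w1 v2 : ℕ → SL(2, ℝ) × ℝ} (h1 : PO D d t ε n1 w1) (h2 : PO D d t ε n2 v2)
    (h : v2 0 = w1 n1) : ∃ w : ℕ → SL(2, ℝ) × ℝ, PO D d t ε (n1 + n2) w ∧ (∀ i ≤ n1, w i = w1 i) ∧ ∀ i, w (n1 + i) = v2 i := by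
  have ha : ∀ i ≤ n1, (fun i => if i ≤ n1 then w1 i else v2 (i - n1)) i = w1 i := fun i hi => if_pos hi
  have hb : ∀ i, (fun i => if i ≤ n1 then w1 i else v2 (i - n1)) (n1 + i) = v2 i := by
    intro i
    rcases Nat.eq_zero_or_pos i with hi | hi
    · rw [hi, add_zero, ha n1 le_rfl, h]
    · have h3 : ¬ n1 + i ≤ n1 := by omega
      show (if n1 + i ≤ n1 then w1 (n1 + i) else v2 (n1 + i - n1)) = v2 i
      rw [if_neg h3, Nat.add_sub_cancel_left]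
  generalize (fun i => if i ≤ n1 then w1 i else v2 (i - n1)) = w at ha hb
  refine ⟨w, ⟨fun i hi => ?_, fun i hi => ?_⟩, ha, hb⟩
  · rcases Nat.le_total i n1 with h3 | h3
    · rw [ha i h3]
      exact h1.en i h3
    · obtain ⟨j, rfl⟩ := Nat.exists_eq_add_of_le h3
      rw [hb j]
      exact h2.en j (by omega)
  · rcases Nat.lt_or_ge i n1 with h3 | h3
    · rw [ha i h3.le, ha (i + 1) h3]
      exact h1.st i h3
    · obtain ⟨j, rfl⟩ := Nat.exists_eq_add_of_le h3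
      rw [hb j, show n1 + j + 1 = n1 + (j + 1) by omega, hb (j + 1)]
      exact h2.st j (by omega)

theorem CA4_proof : CA4_stmt := by
  intro d D hF t ε n1 n2 w1 w2 h1 h2 hP
  rcases hP.1 with h | h
  · obtain ⟨w, hw, ha, hb⟩ := CA4_cat h1 h2 (Prod.ext h.symm hP.2.symm)
    refine ⟨w, hw, ha, fun i _ => ?_⟩
    rw [hb i]
    exact ⟨Or.inl rfl, rfl⟩
  · obtain ⟨w, hw, ha, hb⟩ := CA4_cat h1 (CA4_neg hF h2) (Prod.ext h.symm hP.2.symm)
    refine ⟨w, hw, ha, fun i _ => ?_⟩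
    rw [hb i]
    exact ⟨Or.inr rfl, rfl⟩

end Pool.Agent.VQ
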