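import Pool.Agent.helper11.VQ.Spec3c

set_option autoImplicit false

open scoped MatrixGroups ContDiff Topology UpperHalfPlane ComplexConjugate ENNReal
open UpperHalfPlane MeasureTheory Filter Set

namespace Pool.Agent.VQ

open Pool.Agent.RS
open Pool.Agent.RPQ (CEig mean VV IsOp IsMul OProj wrd PJ nst mks MO Net Cl CkB PN upd Eqd)

noncomputable section

lemma FAMV_mono {Γ : Subgroup SL(2, ℝ)} {κ : ℝ → ℝ} {ρ C C' : ℝ} {J : ℕ} {p : Fin J → ℍ} {χ : Fin J → ℍ → ℝ}
    (h : Net Γ κ ρ C J p χ) (hC : C ≤ C') : Net Γ κ ρ C' J p χ := by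
  refine { cover := h.cover, inv := h.inv, smooth := h.smooth, bd := h.bd, one := h.one, supp := h.supp, mol := ?_ }
  intro ξ hξ
  obtain ⟨V0, v1, v2, v3⟩ := h.mol ξ hξ
  exact ⟨V0, v1, fun z => (v2 z).trans hC, v3⟩

/-- `exp ((2n+1)(log k)²)/2^k` -/
def FAMV_f (n k : ℕ) : ℝ := Real.exp ((2 * n + 1) * (Real.log k) ^ 2) / 2 ^ k

lemma FAMV_f0 (n k : ℕ) : 0 ≤ FAMV_f n k := by
  unfold FAMV_f
  positivity

lemma FAMV_eq (n k : ℕ) : ak k * rk k ^ (-(2 * (n : ℝ))) = 64 * FAMV_f n k := by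
  unfold ak rk FAMV_f
  rw [← Real.exp_mul]
  have h1 : Real.exp ((2 * n + 1) * (Real.log k) ^ 2) = Real.exp ((Real.log k) ^ 2) * Real.exp (-(Real.log k) ^ 2 * -(2 * (n : ℝ))) := by
    rw [← Real.exp_add]
    congr 1
    ring
  rw [h1]
  ring

lemma FAMV_summ (n : ℕ) : Summable (FAMV_f n) := by
  obtain ⟨r, hr⟩ : ∃ r : ℝ, r = Real.exp (-(Real.log 2 / 2)) := ⟨_, rfl⟩
  have hl2 : 0 < Real.log 2 := Real.log_pos (by norm_num)
  have hr0 : 0 ≤ r := by rw [hr]; positivity
  have hr1 : r < 1 := by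
    rw [hr, Real.exp_lt_one_iff]
    linarith
  refine Summable.of_norm_bounded_eventually_nat (summable_geometric_of_lt_one hr0 hr1) ?_
  have h1 : ∀ᶠ x : ℝ in atTop, ‖Real.log x ^ 2‖ ≤ (Real.log 2 / 2 / (2 * n + 1)) * ‖id x‖ :=
    (Real.isLittleO_pow_log_id_atTop (n := 2)).bound (by positivity)
  have h2 := tendsto_natCast_atTop_atTop.eventually h1
  filter_upwards [h2] with k hk
  rw [Real.norm_of_nonneg (FAMV_f0 n k)]
  rw [Real.norm_of_nonneg (sq_nonneg _), id, Real.norm_of_nonneg (Nat.cast_nonneg k)] at hk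
  have h3 : (2 * (n : ℝ) + 1) * Real.log k ^ 2 ≤ Real.log 2 / 2 * k := by
    have h4 : (0 : ℝ) < 2 * n + 1 := by positivity
    have h5 := mul_le_mul_of_nonneg_left hk h4.le
    calc (2 * (n : ℝ) + 1) * Real.log k ^ 2 ≤ (2 * n + 1) * (Real.log 2 / 2 / (2 * n + 1) * k) := h5
      _ = Real.log 2 / 2 * k := by field_simp
  unfold FAMV_f
  have h6 : (2 : ℝ) ^ k = Real.exp (Real.log 2 * k) := by
    rw [Real.exp_mul, Real.exp_log (by norm_num), Real.rpow_natCast]
  rw [h6, hr, ← Real.exp_nat_mul, ← Real.exp_sub]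
  apply Real.exp_le_exp.2
  linarith

lemma FAMV_tail (f : ℕ → ℝ) (hf : Summable f) (η : ℝ) (hη : 0 < η) :
    ∀ᶠ K : ℕ in atTop, ∑' k, (if K ≤ k then f k else 0) ≤ η := by
  have h1 := (tendsto_sum_nat_add f).eventually_le_const hη
  filter_upwards [h1] with K hK
  have hg : Summable (fun k => if K ≤ k then f k else 0) := by
    refine (summable_nat_add_iff K).1 ?_
    have h2 : (fun k => if K ≤ k + K then f (k + K) else 0) = fun k => f (k + K) := by
      funext k
      rw [if_pos (Nat.le_add_left _ _)]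
    rw [h2]
    exact (summable_nat_add_iff K).2 hf
  rw [← hg.sum_add_tsum_nat_add K]
  have h3 : ∑ i ∈ Finset.range K, (if K ≤ i then f i else 0) = 0 := by
    refine Finset.sum_eq_zero fun i hi => ?_
    rw [if_neg (not_le.2 (Finset.mem_range.1 hi))]
  have h4 : (fun i => if K ≤ i + K then f (i + K) else 0) = fun i => f (i + K) := by
    funext k
    rw [if_pos (Nat.le_add_left _ _)]
  rw [h3, zero_add, h4]
  exact hK

lemma FAMV_rk (ρ0 : ℝ) (h : 0 < ρ0) : ∃ K : ℕ, ∀ k : ℕ, K ≤ k → rk k ≤ ρ0 := by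
  have h1 : Tendsto (fun k : ℕ => rk k) atTop (𝓝 0) := by
    have h2 : Tendsto (fun k : ℕ => Real.log (k : ℝ)) atTop atTop := Real.tendsto_log_atTop.comp tendsto_natCast_atTop_atTop
    have h3 : Tendsto (fun k : ℕ => (Real.log (k : ℝ)) ^ 2) atTop atTop := (tendsto_pow_atTop (by norm_num)).comp h2
    have h4 : Tendsto (fun k : ℕ => -(Real.log (k : ℝ)) ^ 2) atTop atBot := tendsto_neg_atTop_atBot.comp h3
    exact Real.tendsto_exp_atBot.comp h4
  obtain ⟨K, hK⟩ := (h1.eventually_le_const h).exists_forall_of_atTop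
  exact ⟨K, fun k hk => hK k hk⟩

theorem FAMV_proof (hBMP : RPQ.BMP_stmt) (hCKB : RPQ.CKB_stmt) : FAMV_stmt := by
  intro Γ κ η hΓ hκ hη
  obtain ⟨C1, ρ0, hC1, hρ0, hρ08, hnet⟩ := hBMP Γ κ hΓ hκ
  obtain ⟨C0, hC0⟩ : ∃ C0 : ℝ, C0 = max C1 1 := ⟨_, rfl⟩
  have hC01 : 1 ≤ C0 := by rw [hC0]; exact le_max_right _ _
  have hC0' : C1 ≤ C0 := by rw [hC0]; exact le_max_left _ _
  have hC00 : 0 < C0 := by linarith
  have hK := (hCKB κ hκ).2
  choose c hc hcK using hK
  obtain ⟨f, hf⟩ : ∃ f : ℕ → ℕ → ℝ, f = fun n k => (c n * C0 * 64) * FAMV_f n k := ⟨_, rfl⟩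
  have hfs : ∀ n, Summable (f n) := by
    intro n
    rw [hf]
    exact (FAMV_summ n).mul_left _
  have hf0 : ∀ n k, 0 ≤ f n k := by
    intro n k
    rw [hf]
    have h1 := hc n
    have h2 := FAMV_f0 n k
    positivity
  obtain ⟨K1, hK1⟩ := FAMV_rk ρ0 hρ0
  obtain ⟨k0, hk3, hkK, ht0, ht1, ht2, ht3⟩ := (((eventually_ge_atTop 3).and ((eventually_ge_atTop K1).and
    ((FAMV_tail _ (hfs 0) η hη).and ((FAMV_tail _ (hfs 1) η hη).and ((FAMV_tail _ (hfs 2) η hη).and (FAMV_tail _ (hfs 3) η hη))))))).exists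
  have hrk0 : ∀ k, 0 < rk k := fun k => Real.exp_pos _
  have H : ∀ k : ℕ, ∃ s : (Σ J : ℕ, (Fin J → ℍ) × (Fin J → ℍ → ℝ)),
      (k0 ≤ k → Net Γ κ (rk k) C0 s.1 s.2.1 s.2.2) ∧ (k < k0 → s.1 = 0) := by
    intro k
    by_cases h : k0 ≤ k
    · obtain ⟨J, p, χ, hN⟩ := hnet (rk k) (hrk0 k) (hK1 k (hkK.trans h))
      exact ⟨⟨J, p, χ⟩, fun _ => FAMV_mono hN hC0', fun h' => absurd h (not_le.2 h')⟩
    · exact ⟨⟨0, fun j => j.elim0, fun j => j.elim0⟩, fun h' => absurd h' h, fun _ => rfl⟩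
  choose s hs1 hs2 using H
  have hsumm : ∀ n, Summable (fun k => if k0 ≤ k then f n k else 0) := by
    intro n
    refine Summable.of_nonneg_of_le (fun k => ?_) (fun k => ?_) (hfs n)
    · split_ifs
      · exact hf0 n k
      · exact le_rfl
    · split_ifs
      · exact le_rfl
      · exact hf0 n k
  refine ⟨C0, k0, fun k => (s k).1, fun k => (s k).2.1, fun k => (s k).2.2, ?_, ?_⟩
  · refine { mo := hκ, c0 := hC01, k1 := hk3, zero := hs2, net := hs1, sum := ?_ }
    refine ⟨fun n k => if k0 ≤ k then f n k else 0, 64 * C0 * (c 0 + c 1), hsumm, ?_, ?_, ?_, ?_⟩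
    · intro n k
      show 0 ≤ (if k0 ≤ k then f n k else 0)
      split_ifs
      · exact hf0 n k
      · exact le_rfl
    · intro n hn
      interval_cases n
      · exact ht0
      · exact ht1
      · exact ht2
      · exact ht3
    · intro n k ζ hζ
      show CkB n (lv (fun k => (s k).2.2) ζ k) (if k0 ≤ k then f n k else 0)
      by_cases h : k0 ≤ k
      · rw [if_pos h]
        have ha : 0 < ak k := by
          unfold ak
          positivity
        have hr1 : rk k ≤ 1 := (hK1 k (hkK.trans h)).trans (by linarith)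
        obtain ⟨V0, v1, v2, v3⟩ := (hs1 k h).mol (fun j => ζ (k, (j : ℕ))) (fun j => hζ _)
        have h1 : lv (fun k => (s k).2.2) ζ k = QU.conv (RPQ.mo κ (rk k)) (fun z => ak k * V0 z) := by
          funext z
          have h2 : VV (s k).2.2 (fun j => ζ (k, (j : ℕ))) z = QU.conv (RPQ.mo κ (rk k)) V0 z := v3 z
          unfold lv
          rw [h2]
          unfold QU.conv
          rw [← integral_const_mul]
          refine integral_congr_ae (ae_of_all _ fun w => ?_)
          simp only [smul_eq_mul]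
          ring
        have h3 : CkB n (lv (fun k => (s k).2.2) ζ k) (c n * (ak k * C0) * rk k ^ (-(2 * (n : ℝ)))) := by
          rw [h1]
          refine hcK n (rk k) (ak k * C0) _ (hrk0 k) hr1 (continuous_const.mul v1.1) fun z => ?_
          rw [abs_mul, abs_of_pos ha]
          exact mul_le_mul_of_nonneg_left (v2 z) ha.le
        have h4 : c n * (ak k * C0) * rk k ^ (-(2 * (n : ℝ))) = f n k := by
          have h5 := FAMV_eq n k
          rw [hf]
          calc c n * (ak k * C0) * rk k ^ (-(2 * (n : ℝ))) = c n * C0 * (ak k * rk k ^ (-(2 * (n : ℝ)))) := by ring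
            _ = _ := by rw [h5]; ring
        rw [h4] at h3
        exact h3
      · rw [if_neg h]
        have h0 : (s k).1 = 0 := hs2 k (not_le.1 h)
        have : IsEmpty (Fin (s k).1) := by
          rw [h0]
          infer_instance
        have h1 : lv (fun k => (s k).2.2) ζ k = fun _ : ℍ => (0 : ℝ) := by
          funext z
          unfold lv VV
          rw [Finset.univ_eq_empty, Finset.sum_empty, mul_zero]
        rw [h1]
        intro g
        have h3 : QU.onC (fun _ : ℍ => (0 : ℝ)) = fun _ : ℂ => (0 : ℝ) := rfl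
        show ‖iteratedFDeriv ℝ n (QU.onC (fun _ : ℍ => (0 : ℝ))) (I : ℂ)‖ ≤ 0
        rw [h3, iteratedFDeriv_fun_zero]
        simp only [Pi.zero_apply, norm_zero, le_refl]
    · intro n hn k
      show (if k0 ≤ k then f n k else 0) ≤ _
      have h1 : (if k0 ≤ k then f n k else 0) ≤ f n k := by
        split_ifs
        · exact le_rfl
        · exact hf0 n k
      refine h1.trans ?_
      have h2 : f n k = (c n * C0 * 64) * FAMV_f n k := by rw [hf]
      rw [h2]
      have h3 : FAMV_f n k ≤ Real.exp (4 * (Real.log k) ^ 2) / 2 ^ k := by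
        unfold FAMV_f
        refine div_le_div_of_nonneg_right (Real.exp_le_exp.2 ?_) (by positivity)
        refine mul_le_mul_of_nonneg_right ?_ (sq_nonneg _)
        have : (n : ℝ) ≤ 1 := by exact_mod_cast hn
        linarith
      have h4 : c n * C0 * 64 ≤ 64 * C0 * (c 0 + c 1) := by
        have h5 : c n ≤ c 0 + c 1 := by
          interval_cases n
          · linarith [hc 1]
          · linarith [hc 0]
        nlinarith
      calc (c n * C0 * 64) * FAMV_f n k ≤ (64 * C0 * (c 0 + c 1)) * (Real.exp (4 * (Real.log k) ^ 2) / 2 ^ k) := by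
            refine mul_le_mul h4 h3 (FAMV_f0 n k) ?_
            have := hc 0
            have := hc 1
            positivity
        _ = _ := by ring
  · intro k hk
    obtain ⟨j, _⟩ := (hs1 k hk).cover UpperHalfPlane.I
    have : 0 < (s k).1 := Fin.pos j
    exact this

end

end Pool.Agent.VQ
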